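import Mathlib

/-! Avoider-Forcer versus Maker-Breaker: upper bounds for the gap factor. -/

namespace Pool.Agent.R5.GF

open Finset

/-- Two players alternately claim unclaimed elements until the board is full. `Ensures goal n mine P Q`
says that the player who owns `P` (the opponent owns `Q`) can ensure that the final position
satisfies `goal P Q`, when `n` elements are unclaimed and `mine` tells whether it is his turn. -/
def Ensures {V : Type*} [DecidableEq V] (goal : Finset V → Finset V → Prop) :
    ℕ → Bool → Finset V → Finset V → Prop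
  | 0, _, P, Q => goal P Q
  | n + 1, true, P, Q => ∃ x, x ∉ P ∧ x ∉ Q ∧ Ensures goal n false (insert x P) Q
  | n + 1, false, P, Q => ∀ x, x ∉ P → x ∉ Q → Ensures goal n true P (insert x Q)

/-- Forcer can force Avoider to claim a whole winning set (`first`: Forcer moves first). -/
def ForcerWins {n : ℕ} (F : Finset (Finset (Fin n))) (first : Bool) : Prop :=
  Ensures (fun _ X => ∃ A ∈ F, A ⊆ X) n first ∅ ∅

/-- Breaker can ensure `|M ∩ A| ≤ |A| / c` for all winning sets (`first`: Breaker moves first). -/
def BreakerHolds {n : ℕ} (F : Finset (Finset (Fin n))) (c : ℝ) (first : Bool) : Prop :=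
  Ensures (fun _ M => ∀ A ∈ F, ((M ∩ A).card : ℝ) ≤ (A.card : ℝ) / c) n first ∅ ∅

/-- `F` has gap factor at least `c`. -/
def GapFactorAtLeast {n : ℕ} (F : Finset (Finset (Fin n))) (c : ℝ) : Prop :=
  (∀ first, ForcerWins F first) ∧ (∀ first, BreakerHolds F c first)

/-- The supremum of the gap factors of finite hypergraphs with nonempty winning sets. -/
noncomputable def cStar : ℝ :=
  sSup {c : ℝ | 1 ≤ c ∧ ∃ (n : ℕ) (F : Finset (Finset (Fin n))),
    (∀ A ∈ F, A.Nonempty) ∧ GapFactorAtLeast F c}

/-- The opponent of the ensuring player can always take half of a given set. -/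
lemma half {n : ℕ} (goal : Finset (Fin n) → Finset (Fin n) → Prop) (A : Finset (Fin n)) :
    ∀ (k : ℕ) (mine : Bool) (P Q : Finset (Fin n)), (univ \ (P ∪ Q)).card = k →
      Ensures goal k mine P Q → ∃ P' Q', goal P' Q' ∧
        2 * (Q ∩ A).card + (A \ (P ∪ Q)).card ≤ 2 * (Q' ∩ A).card + (if mine then 1 else 0) := by
  intro k
  induction k with
  | zero =>
    intro mine P Q hk h
    refine ⟨P, Q, h, ?_⟩
    have : (A \ (P ∪ Q)).card = 0 := by
      have h1 : (A \ (P ∪ Q)).card ≤ (univ \ (P ∪ Q)).card :=
        card_le_card (sdiff_subset_sdiff (subset_univ _) (Subset.refl _))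
      omega
    omega
  | succ k ih =>
    intro mine P Q hk h
    cases mine with
    | true =>
      obtain ⟨x, hxP, hxQ, hx⟩ := h
      have hcard : (univ \ (insert x P ∪ Q)).card = k := by
        have : univ \ (insert x P ∪ Q) = (univ \ (P ∪ Q)).erase x := by
          ext y; simp only [mem_sdiff, mem_univ, true_and, mem_union, mem_insert, not_or, mem_erase, ne_eq]; tauto
        rw [this, card_erase_of_mem (by simp [hxP, hxQ]), hk]; rfl
      obtain ⟨P', Q', hg, hle⟩ := ih false (insert x P) Q hcard hx
      refine ⟨P', Q', hg, ?_⟩
      have h2 : (A \ (P ∪ Q)).card ≤ (A \ (insert x P ∪ Q)).card + 1 := by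
        have : A \ (P ∪ Q) ⊆ insert x (A \ (insert x P ∪ Q)) := by
          intro y hy
          simp only [mem_insert, mem_sdiff, mem_union] at hy ⊢
          tauto
        exact le_trans (card_le_card this) (card_insert_le _ _)
      simp only [Bool.false_eq_true, if_false, if_true] at hle ⊢
      omega
    | false =>
      -- the opponent moves
      by_cases hA : (A \ (P ∪ Q)).Nonempty
      · obtain ⟨x, hx⟩ := hA
        rw [mem_sdiff, mem_union, not_or] at hx
        obtain ⟨hxA, hxP, hxQ⟩ := hx
        have hx := h x hxP hxQ
        have hcard : (univ \ (P ∪ insert x Q)).card = k := by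
          have : univ \ (P ∪ insert x Q) = (univ \ (P ∪ Q)).erase x := by
            ext y; simp only [mem_sdiff, mem_univ, true_and, mem_union, mem_insert, not_or, mem_erase, ne_eq]; tauto
          rw [this, card_erase_of_mem (by simp [hxP, hxQ]), hk]; rfl
        obtain ⟨P', Q', hg, hle⟩ := ih true P (insert x Q) hcard hx
        refine ⟨P', Q', hg, ?_⟩
        have h1 : (insert x Q ∩ A).card = (Q ∩ A).card + 1 := by
          rw [insert_inter_of_mem hxA, card_insert_of_notMem (by simp [hxQ])]
        have h2 : (A \ (P ∪ Q)).card = (A \ (P ∪ insert x Q)).card + 1 := by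
          have : A \ (P ∪ Q) = insert x (A \ (P ∪ insert x Q)) := by
            ext y
            simp only [mem_insert, mem_sdiff, mem_union]
            constructor
            · intro hy; tauto
            · rintro (rfl | hy)
              · exact ⟨hxA, by tauto⟩
              · tauto
          rw [this, card_insert_of_notMem (by simp)]
        simp only [Bool.false_eq_true, if_false, if_true] at hle ⊢
        omega
      · rw [not_nonempty_iff_eq_empty] at hA
        have hne : (univ \ (P ∪ Q)).Nonempty := by
          rw [← card_pos]; omega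
        obtain ⟨x, hx⟩ := hne
        rw [mem_sdiff, mem_union, not_or] at hx
        obtain ⟨_, hxP, hxQ⟩ := hx
        have hx := h x hxP hxQ
        have hcard : (univ \ (P ∪ insert x Q)).card = k := by
          have : univ \ (P ∪ insert x Q) = (univ \ (P ∪ Q)).erase x := by
            ext y; simp only [mem_sdiff, mem_univ, true_and, mem_union, mem_insert, not_or, mem_erase, ne_eq]; tauto
          rw [this, card_erase_of_mem (by simp [hxP, hxQ]), hk]; rfl
        obtain ⟨P', Q', hg, hle⟩ := ih true P (insert x Q) hcard hx
        refine ⟨P', Q', hg, ?_⟩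
        have h1 : (Q ∩ A).card ≤ (insert x Q ∩ A).card :=
          card_le_card (inter_subset_inter_right (subset_insert _ _))
        rw [hA, card_empty]
        simp only [Bool.false_eq_true, if_false, if_true] at hle ⊢
        omega

/-- Coupling of a Forcer strategy and a Breaker strategy: Avoider and Maker can share a third of
the board. -/
lemma couple {n : ℕ} (g₁ g₂ : Finset (Fin n) → Finset (Fin n) → Prop) :
    ∀ (k : ℕ) (Y X B M : Finset (Fin n)), (univ \ (Y ∪ X)).card = k → (univ \ (B ∪ M)).card = k →
      Ensures g₁ k false Y X → Ensures g₂ k false B M →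
      ∃ Y' X' B' M', g₁ Y' X' ∧ g₂ B' M' ∧ X'.card = X.card + (k + 1) / 2 ∧
        3 * (X ∩ M).card + (univ \ ((Y ∪ X) ∪ (B ∪ M))).card ≤ 3 * (X' ∩ M').card := by
  intro k
  induction k using Nat.strong_induction_on with
  | _ k ih =>
    intro Y X B M hk1 hk2 h1 h2
    -- choice of the moves
    have hmoves : k = 0 ∨ ∃ x x' : Fin n, (x ∉ Y ∧ x ∉ X) ∧ (x' ∉ B ∧ x' ∉ M) ∧
        ((univ \ ((Y ∪ X) ∪ (B ∪ M))).card = 0 ∨ x = x') := by
      rcases Nat.eq_zero_or_pos k with hk | hk
      · left; exact hk
      · right
        by_cases hU : (univ \ ((Y ∪ X) ∪ (B ∪ M))).Nonempty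
        · obtain ⟨x, hx⟩ := hU
          simp only [mem_sdiff, mem_univ, true_and, mem_union, not_or] at hx
          exact ⟨x, x, ⟨hx.1.1, hx.1.2⟩, ⟨hx.2.1, hx.2.2⟩, Or.inr rfl⟩
        · have hn1 : (univ \ (Y ∪ X)).Nonempty := by rw [← card_pos]; omega
          have hn2 : (univ \ (B ∪ M)).Nonempty := by rw [← card_pos]; omega
          obtain ⟨x, hx⟩ := hn1
          obtain ⟨x', hx'⟩ := hn2
          simp only [mem_sdiff, mem_univ, true_and, mem_union, not_or] at hx hx'
          rw [not_nonempty_iff_eq_empty] at hU
          exact ⟨x, x', hx, hx', Or.inl (by rw [hU]; rfl)⟩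
    rcases hmoves with rfl | ⟨x, x', hx, hx', hxx⟩
    · refine ⟨Y, X, B, M, h1, h2, by simp, ?_⟩
      have : (univ \ ((Y ∪ X) ∪ (B ∪ M))).card ≤ (univ \ (Y ∪ X)).card :=
        card_le_card (sdiff_subset_sdiff (Subset.refl _) subset_union_left)
      omega
    · obtain ⟨k, rfl⟩ : ∃ j, k = j + 1 := by
        refine ⟨k - 1, ?_⟩
        have : 0 < k := by
          rw [← hk1, card_pos]
          exact ⟨x, by simp [hx.1, hx.2]⟩
        omega
      have h1' := h1 x hx.1 hx.2
      have h2' := h2 x' hx'.1 hx'.2
      have hc1 : (univ \ (Y ∪ insert x X)).card = k := by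
        have : univ \ (Y ∪ insert x X) = (univ \ (Y ∪ X)).erase x := by
          ext y; simp only [mem_sdiff, mem_univ, true_and, mem_union, mem_insert, not_or, mem_erase, ne_eq]; tauto
        rw [this, card_erase_of_mem (by simp [hx.1, hx.2]), hk1]; rfl
      have hc2 : (univ \ (B ∪ insert x' M)).card = k := by
        have : univ \ (B ∪ insert x' M) = (univ \ (B ∪ M)).erase x' := by
          ext y; simp only [mem_sdiff, mem_univ, true_and, mem_union, mem_insert, not_or, mem_erase, ne_eq]; tauto
        rw [this, card_erase_of_mem (by simp [hx'.1, hx'.2]), hk2]; rfl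
      have hXc : (insert x X).card = X.card + 1 := card_insert_of_notMem hx.2
      -- effect on the common part
      have hcommon : 3 * (X ∩ M).card + (univ \ ((Y ∪ X) ∪ (B ∪ M))).card ≤
          3 * (insert x X ∩ insert x' M).card +
            ((univ \ ((Y ∪ insert x X) ∪ (B ∪ insert x' M))).card - 2) := by
        rcases hxx with h0 | rfl
        · have : (X ∩ M).card ≤ (insert x X ∩ insert x' M).card :=
            card_le_card (inter_subset_inter (subset_insert _ _) (subset_insert _ _))
          omega
        · have e1 : insert x X ∩ insert x M = insert x (X ∩ M) := by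
            ext y; simp; tauto
          have e2 : (insert x (X ∩ M)).card = (X ∩ M).card + 1 :=
            card_insert_of_notMem (by simp [hx.2])
          have e3 : univ \ ((Y ∪ X) ∪ (B ∪ M)) =
              insert x (univ \ ((Y ∪ insert x X) ∪ (B ∪ insert x M))) := by
            ext y
            simp only [mem_sdiff, mem_univ, true_and, mem_union, mem_insert, not_or]
            constructor
            · intro h; tauto
            · rintro (rfl | h)
              · exact ⟨⟨hx.1, hx.2⟩, hx'.1, hx'.2⟩
              · tauto
          have e4 : (univ \ ((Y ∪ X) ∪ (B ∪ M))).card =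
              (univ \ ((Y ∪ insert x X) ∪ (B ∪ insert x M))).card + 1 := by
            rw [e3, card_insert_of_notMem (by simp)]
          rw [e1, e2]
          omega
      cases k with
      | zero =>
        refine ⟨Y, insert x X, B, insert x' M, h1', h2', by rw [hXc], ?_⟩
        have : (univ \ ((Y ∪ insert x X) ∪ (B ∪ insert x' M))).card ≤
            (univ \ (Y ∪ insert x X)).card :=
          card_le_card (sdiff_subset_sdiff (Subset.refl _) subset_union_left)
        omega
      | succ k =>
        obtain ⟨y, hyY, hyX, h1''⟩ := h1'
        obtain ⟨y', hyB, hyM, h2''⟩ := h2'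
        have hd1 : (univ \ (insert y Y ∪ insert x X)).card = k := by
          have : univ \ (insert y Y ∪ insert x X) = (univ \ (Y ∪ insert x X)).erase y := by
            ext z; simp only [mem_sdiff, mem_univ, true_and, mem_union, mem_insert, not_or, mem_erase, ne_eq]; tauto
          rw [this, card_erase_of_mem (by simp only [mem_sdiff, mem_univ, true_and, mem_union, not_or]; exact ⟨hyY, hyX⟩), hc1]; rfl
        have hd2 : (univ \ (insert y' B ∪ insert x' M)).card = k := by
          have : univ \ (insert y' B ∪ insert x' M) = (univ \ (B ∪ insert x' M)).erase y' := by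
            ext z; simp only [mem_sdiff, mem_univ, true_and, mem_union, mem_insert, not_or, mem_erase, ne_eq]; tauto
          rw [this, card_erase_of_mem (by simp only [mem_sdiff, mem_univ, true_and, mem_union, not_or]; exact ⟨hyB, hyM⟩), hc2]; rfl
        obtain ⟨Y', X', B', M', g1, g2, hX', hle⟩ := ih k (by omega) _ _ _ _ hd1 hd2 h1'' h2''
        refine ⟨Y', X', B', M', g1, g2, by rw [hX', hXc]; omega, ?_⟩
        have hU : (univ \ ((Y ∪ insert x X) ∪ (B ∪ insert x' M))).card ≤
            (univ \ ((insert y Y ∪ insert x X) ∪ (insert y' B ∪ insert x' M))).card + 2 := by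
          have hs : univ \ ((Y ∪ insert x X) ∪ (B ∪ insert x' M)) ⊆
              insert y (insert y' (univ \ ((insert y Y ∪ insert x X) ∪
                (insert y' B ∪ insert x' M)))) := by
            intro z hz
            simp only [mem_sdiff, mem_univ, true_and, mem_union, mem_insert, not_or] at hz ⊢
            tauto
          refine le_trans (card_le_card hs) ?_
          refine le_trans (card_insert_le _ _) ?_
          have := card_insert_le y' (univ \ ((insert y Y ∪ insert x X) ∪
                (insert y' B ∪ insert x' M)))
          omega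
        omega

end Pool.Agent.R5.GF
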