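import Pool.Agent.R5.GF.Basic

/-! Upper bounds for the gap factor. -/

namespace Pool.Agent.R5.GF

open Finset

lemma free_card (n : ℕ) : ((univ : Finset (Fin n)) \ (∅ ∪ ∅)).card = n := by simp

/-- No hypergraph has gap factor above `2`. -/
theorem gap_le_two {n : ℕ} (F : Finset (Finset (Fin n))) (hne : ∀ A ∈ F, A.Nonempty) (c : ℝ)
    (hc : 1 ≤ c) (h : GapFactorAtLeast F c) : c ≤ 2 := by
  obtain ⟨_, X, ⟨A, hA, _⟩, _⟩ := half _ ∅ n true ∅ ∅ (free_card n) (h.1 true)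
  obtain ⟨_, M, hM, hle⟩ := half _ A n false ∅ ∅ (free_card n) (h.2 false)
  have h1 := hM A hA
  have hpos : 0 < A.card := card_pos.mpr (hne A hA)
  have hposR : (0 : ℝ) < A.card := by exact_mod_cast hpos
  have h2 : A.card ≤ 2 * (M ∩ A).card := by
    simp only [Bool.false_eq_true, if_false] at hle
    have : A \ (∅ ∪ ∅) = A := by simp
    rw [this] at hle
    omega
  have h2R : (A.card : ℝ) ≤ 2 * ((M ∩ A).card : ℝ) := by exact_mod_cast h2
  have h3 : ((M ∩ A).card : ℝ) * c ≤ A.card := by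
    rwa [le_div_iff₀ (by linarith)] at h1
  by_contra hcon
  push Not at hcon
  have hM0 : (0 : ℝ) < ((M ∩ A).card : ℝ) := by linarith
  nlinarith

/-- The coupling bound. -/
theorem coupling_bound {n : ℕ} (F : Finset (Finset (Fin n))) (c : ℝ) (hc : 1 ≤ c)
    (h : GapFactorAtLeast F c) :
    ∃ A ∈ F, A.card ≤ (n + 1) / 2 ∧
      c * ((A.card : ℝ) - (((n + 1) / 2 : ℕ) : ℝ) + (n : ℝ) / 3) ≤ A.card := by
  obtain ⟨_, X, _, M, ⟨A, hA, hAX⟩, hM, hX, hle⟩ :=
    couple _ _ n ∅ ∅ ∅ ∅ (free_card n) (free_card n) (h.1 false) (h.2 false)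
  have hXc : X.card = (n + 1) / 2 := by simpa using hX
  refine ⟨A, hA, by rw [← hXc]; exact card_le_card hAX, ?_⟩
  have hle' : n ≤ 3 * (X ∩ M).card := by
    simpa using hle
  have h1 : A.card ≤ (M ∩ A).card + (X.card - (X ∩ M).card) := by
    have e1 : (A \ M).card ≤ (X \ M).card := card_le_card (sdiff_subset_sdiff hAX (Subset.refl _))
    have e2 : (A \ M).card + (A ∩ M).card = A.card := card_sdiff_add_card_inter A M
    have e3 : (X \ M).card + (X ∩ M).card = X.card := card_sdiff_add_card_inter X M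
    rw [inter_comm M A]
    omega
  have h2 : (X ∩ M).card ≤ X.card := card_le_card inter_subset_left
  have h1R : (A.card : ℝ) ≤ (M ∩ A).card + ((X.card : ℝ) - ((X ∩ M).card : ℝ)) := by
    have : ((X.card - (X ∩ M).card : ℕ) : ℝ) = (X.card : ℝ) - ((X ∩ M).card : ℝ) :=
      Nat.cast_sub h2
    rw [← this]
    exact_mod_cast h1
  have hleR : (n : ℝ) ≤ 3 * ((X ∩ M).card : ℝ) := by exact_mod_cast hle'
  have h3 := hM A hA
  rw [le_div_iff₀ (by linarith)] at h3
  have h4 : (A.card : ℝ) - (((n + 1) / 2 : ℕ) : ℝ) + (n : ℝ) / 3 ≤ ((M ∩ A).card : ℝ) := by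
    rw [← hXc]; linarith
  nlinarith

/-- For winning sets of at least half the board the gap factor is at most `3/2 (1 + 1/n)`. -/
theorem half_board {n : ℕ} (hn : 1 ≤ n) (F : Finset (Finset (Fin n)))
    (hF : ∀ A ∈ F, n ≤ 2 * A.card) (c : ℝ) (hc : 1 ≤ c) (h : GapFactorAtLeast F c) :
    c ≤ 3 / 2 * (1 + 1 / n) := by
  obtain ⟨A, hA, hle, hmain⟩ := coupling_bound F c hc h
  have h1 := hF A hA
  have h2 : A.card = (n + 1) / 2 := by omega
  rw [← h2, sub_self, zero_add] at hmain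
  have hn0 : (0 : ℝ) < n := by exact_mod_cast hn
  have h3 : (A.card : ℝ) ≤ ((n : ℝ) + 1) / 2 := by
    rw [h2]
    have := @Nat.cast_div_le ℝ _ _ _ (n + 1) 2
    push_cast at this ⊢
    linarith
  have h4 : c * ((n : ℝ) / 3) ≤ ((n : ℝ) + 1) / 2 := le_trans hmain h3
  have h5 : 3 / 2 * (1 + 1 / (n : ℝ)) = (((n : ℝ) + 1) / 2) / ((n : ℝ) / 3) := by
    field_simp
  rw [h5, le_div_iff₀ (by positivity)]
  exact h4

theorem cStar_le_two : cStar ≤ 2 := by
  apply Real.sSup_le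
  · rintro c ⟨hc, n, F, hne, h⟩
    exact gap_le_two F hne c hc h
  · norm_num

end Pool.Agent.R5.GF
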